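import Pool.Agent.MP_4045d2_lc.ScD

set_option autoImplicit false

open MeasureTheory

namespace Pool.Agent.Results.MP_4045d2_lc.EquiHull

/-- Countably many equicontinuous families of homeomorphisms of a compact manifold of dimension
at least two lie in one dense G-delta set that is openly Haar null. -/
theorem result : ∀ n : ℕ, 2 ≤ n →
    ∀ (M : Type) [MetricSpace M] [CompactSpace M] [Nonempty M]
      [ChartedSpace (EuclideanSpace ℝ (Fin n)) M],
    ∀ G : Set C(M, M), (∀ f ∈ G, Function.Bijective f) →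
      (∀ f : C(M, M),
        (f.HomotopicWith (ContinuousMap.id M) fun g => Function.Bijective g) → f ∈ G) →
    ∀ m : MeasurableSpace G, m = borel G →
    ∀ K : ℕ → Set G, (∀ j, Equicontinuous fun (f : K j) (x : M) => (f : C(M, M)) x) →
    ∃ B : Set G, IsGδ B ∧ Dense B ∧ (∀ j, K j ⊆ B) ∧
      ∃ μ : Measure G, IsProbabilityMeasure μ ∧
        ∀ ε : ENNReal, 0 < ε → ∃ U : Set G, IsOpen U ∧ B ⊆ U ∧ ∀ g h : G,
          μ {x : G | ∃ b ∈ U,
            (x : C(M, M)) = (g : C(M, M)).comp ((b : C(M, M)).comp (h : C(M, M)))} ≤ ε := by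
  intro n hn M _ _ _ _ G h1 h2 m hm K hK
  obtain ⟨d, rfl⟩ : ∃ d, n = d + 2 := ⟨n - 2, by omega⟩
  have : BorelSpace G := ⟨hm⟩
  obtain ⟨Λ⟩ : Nonempty (((Fin 1 → ℝ) × (Fin (d + 1) → ℝ)) ≃L[ℝ] EuclideanSpace ℝ (Fin (d + 2))) :=
    FiniteDimensional.nonempty_continuousLinearEquiv_of_finrank_eq (by simp; ring)
  have h := Pool.Agent.MP_4045d2_lc.Sc.exists_ch (M := M) Λ
  obtain ⟨ψ, hψ, -⟩ := h (Classical.arbitrary M)
  have : Infinite M := .of_injective ψ hψ.emb.injective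
  exact Pool.Agent.MP_4045d2_lc.Sc.hull h G h1 h2 K hK

end Pool.Agent.Results.MP_4045d2_lc.EquiHull
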